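import Pool.Agent.helper25.TW.Spec

set_option autoImplicit false

namespace TP.TW

open DP MeasureTheory Finset

private theorem SPR_crs (o : Bool) (c : V → Bool) (k : Bool) (S : Finset V) (x : V) (t : ℕ)
    (a b d e : ℤ) (h : ∀ v ∈ rect a b d e, sd x v ≤ 3 * t)
    (hc : crs o c k (til S) a b d e) :
    crs o c k (til (S.filter fun v => sd x v ≤ 3 * t + 1)) a b d e := by
  have key : ∀ v ∈ rect a b d e ∩ til S,
      v ∈ rect a b d e ∩ til (S.filter fun v => sd x v ≤ 3 * t + 1) := by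
    rintro v ⟨hv, hv'⟩
    refine ⟨hv, ?_⟩
    have h1 : br v ∈ S := hv'
    show br v ∈ S.filter fun v => sd x v ≤ 3 * t + 1
    rw [Finset.mem_filter]
    refine ⟨h1, ?_⟩
    have h2 := h v hv
    unfold sd at h2 ⊢
    rcases br_eq v with h3 | h3
    · rw [h3]; omega
    · rw [h3]
      simp only
      omega
  obtain ⟨u, v, huv, hw, hr⟩ := hc
  refine ⟨u, v, huv, ⟨key u hw.1, hw.2⟩, ?_⟩
  clear huv
  induction hr with
  | refl => exact Relation.ReflTransGen.refl
  | tail _ h2 ih => exact ih.tail ⟨h2.1, key _ h2.2.1, h2.2.2⟩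

theorem SPR (anr : ANR_stmt) (vsp : VSP_stmt) (lcr : LCR_stmt) : SPR_stmt := by
  obtain ⟨C, hC, h⟩ := vsp
  refine ⟨4 * C, by positivity, fun k S x t ht => ?_⟩
  have hP : IsProbabilityMeasure P1 := by unfold P1; infer_instance
  have hU : ∀ A B : Set (V → Bool), Pr (A ∪ B) ≤ Pr A + Pr B := fun A B => measureReal_union_le A B
  have hM : ∀ A B : Set (V → Bool), A ⊆ B → Pr A ≤ Pr B := fun A B hAB => measureReal_mono hAB
  have hr : ∀ (a b d e : ℤ), x.1 - 3 * t ≤ a → b ≤ x.1 + 3 * t → x.2 - 3 * t ≤ d →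
      e ≤ x.2 + 3 * t → ∀ v ∈ rect a b d e, sd x v ≤ 3 * t := by
    rintro a b d e h1 h2 h3 h4 v ⟨h5, h6, h7, h8⟩
    unfold sd
    omega
  set S' := S.filter fun v => sd x v ≤ 3 * t + 1 with hS'
  have e1 := (h k S' t (x.1 - 3 * t) (x.2 + t) ht).1
  have e2 := (h k S' t (x.1 - 3 * t) (x.2 - 3 * t) ht).1
  have e3 := (h k S' t (x.1 + t) (x.2 - 3 * t) ht).2
  have e4 := (h k S' t (x.1 - 3 * t) (x.2 - 3 * t) ht).2
  have hsub : (Ev fun c => SR c k S x t) ⊆
      ((Ev fun c => crs true c k (til S') (x.1 - 3 * t) (x.1 - 3 * t + 6 * t) (x.2 + t) (x.2 + t + 2 * t)) ∪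
      (Ev fun c => crs true c k (til S') (x.1 - 3 * t) (x.1 - 3 * t + 6 * t) (x.2 - 3 * t) (x.2 - 3 * t + 2 * t))) ∪
      ((Ev fun c => crs false c k (til S') (x.1 + t) (x.1 + t + 2 * t) (x.2 - 3 * t) (x.2 - 3 * t + 6 * t)) ∪
      (Ev fun c => crs false c k (til S') (x.1 - 3 * t) (x.1 - 3 * t + 2 * t) (x.2 - 3 * t) (x.2 - 3 * t + 6 * t))) := by
    intro β hβ
    have hβ' : SR (col β) k S x t := hβ
    rcases anr (col β) k S x t ht hβ' with hc | hc | hc | hc
    · refine Or.inl (Or.inl ?_)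
      have hc' := SPR_crs true (col β) k S x t _ _ _ _ (hr _ _ _ _ (by omega) (by omega) (by omega) (by omega)) hc
      have q1 : x.1 - 3 * (t : ℤ) + 6 * t = x.1 + 3 * t := by ring
      have q2 : x.2 + (t : ℤ) + 2 * t = x.2 + 3 * t := by ring
      show crs true (col β) k (til S') _ _ _ _
      rw [q1, q2]
      exact hc'
    · refine Or.inl (Or.inr ?_)
      have hc' := SPR_crs true (col β) k S x t _ _ _ _ (hr _ _ _ _ (by omega) (by omega) (by omega) (by omega)) hc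
      have q1 : x.1 - 3 * (t : ℤ) + 6 * t = x.1 + 3 * t := by ring
      have q2 : x.2 - 3 * (t : ℤ) + 2 * t = x.2 - t := by ring
      show crs true (col β) k (til S') _ _ _ _
      rw [q1, q2]
      exact hc'
    · refine Or.inr (Or.inl ?_)
      have hc' := SPR_crs false (col β) k S x t _ _ _ _ (hr _ _ _ _ (by omega) (by omega) (by omega) (by omega)) hc
      have q1 : x.2 - 3 * (t : ℤ) + 6 * t = x.2 + 3 * t := by ring
      have q2 : x.1 + (t : ℤ) + 2 * t = x.1 + 3 * t := by ring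
      show crs false (col β) k (til S') _ _ _ _
      rw [q1, q2]
      exact hc'
    · refine Or.inr (Or.inr ?_)
      have hc' := SPR_crs false (col β) k S x t _ _ _ _ (hr _ _ _ _ (by omega) (by omega) (by omega) (by omega)) hc
      have q1 : x.2 - 3 * (t : ℤ) + 6 * t = x.2 + 3 * t := by ring
      have q2 : x.1 - 3 * (t : ℤ) + 2 * t = x.1 - t := by ring
      show crs false (col β) k (til S') _ _ _ _
      rw [q1, q2]
      exact hc'
  refine (hM _ _ hsub).trans ?_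
  refine (hU _ _).trans ?_
  have u1 := hU (Ev fun c => crs true c k (til S') (x.1 - 3 * t) (x.1 - 3 * t + 6 * t) (x.2 + t) (x.2 + t + 2 * t))
      (Ev fun c => crs true c k (til S') (x.1 - 3 * t) (x.1 - 3 * t + 6 * t) (x.2 - 3 * t) (x.2 - 3 * t + 2 * t))
  have u2 := hU (Ev fun c => crs false c k (til S') (x.1 + t) (x.1 + t + 2 * t) (x.2 - 3 * t) (x.2 - 3 * t + 6 * t))
      (Ev fun c => crs false c k (til S') (x.1 - 3 * t) (x.1 - 3 * t + 2 * t) (x.2 - 3 * t) (x.2 - 3 * t + 6 * t))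
  have e5 : 4 * C * (#S' : ℝ) / (t : ℝ) ^ 2 = C * #S' / (t : ℝ) ^ 2 + C * #S' / (t : ℝ) ^ 2 +
      (C * #S' / (t : ℝ) ^ 2 + C * #S' / (t : ℝ) ^ 2) := by ring
  rw [e5]
  exact add_le_add (u1.trans (add_le_add e1 e2)) (u2.trans (add_le_add e3 e4))

end TP.TW
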